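import Mathlib

/-!
# Square sums of normed spaces

Helper lemmas for `lp E 2`.
-/

set_option autoImplicit false

open Filter Topology

namespace Pool.Agent.Q178.KP

section

variable {α : Type} {E : α → Type} [∀ i, NormedAddCommGroup (E i)]

theorem two_toReal : (2 : ENNReal).toReal = 2 := by norm_num

theorem two_pos' : 0 < (2 : ENNReal).toReal := by norm_num

theorem summable_sq (f : lp E 2) : Summable fun i => ‖f i‖ ^ 2 := by
  have := (lp.memℓp f).summable two_pos'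
  simpa only [two_toReal, Real.rpow_two] using this

theorem norm_sq (f : lp E 2) : ‖f‖ ^ 2 = ∑' i, ‖f i‖ ^ 2 := by
  have := lp.norm_rpow_eq_tsum two_pos' f
  simpa only [two_toReal, Real.rpow_two] using this

theorem mem_of_summable {f : ∀ i, E i} (h : Summable fun i => ‖f i‖ ^ 2) : Memℓp f 2 := by
  refine memℓp_gen ?_
  simpa only [two_toReal, Real.rpow_two] using h

theorem mem_of_bound {f : ∀ i, E i} {C : ℝ} (h : ∀ s : Finset α, ∑ i ∈ s, ‖f i‖ ^ 2 ≤ C) :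
    Memℓp f 2 := by
  refine memℓp_gen' (C := C) fun s => ?_
  simpa only [two_toReal, Real.rpow_two] using h s

theorem norm_le_of_sum {f : lp E 2} {C : ℝ} (hC : 0 ≤ C)
    (h : ∀ s : Finset α, ∑ i ∈ s, ‖f i‖ ^ 2 ≤ C ^ 2) : ‖f‖ ≤ C := by
  refine lp.norm_le_of_forall_sum_le two_pos' hC fun s => ?_
  simpa only [two_toReal, Real.rpow_two] using h s

theorem sum_le_norm_sq (f : lp E 2) (s : Finset α) : ∑ i ∈ s, ‖f i‖ ^ 2 ≤ ‖f‖ ^ 2 := by
  have := lp.sum_rpow_le_norm_rpow two_pos' f s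
  simpa only [two_toReal, Real.rpow_two] using this

theorem mem_of_le (f : lp E 2) {g : ∀ i, E i} (h : ∀ i, ‖g i‖ ≤ ‖f i‖) : Memℓp g 2 :=
  mem_of_summable (Summable.of_nonneg_of_le (fun _ => by positivity)
    (fun i => pow_le_pow_left₀ (norm_nonneg _) (h i) 2) (summable_sq f))

theorem apply_le (f : lp E 2) (i : α) : ‖f i‖ ≤ ‖f‖ := lp.norm_apply_le_norm (by norm_num) f i

theorem norm_le_of_le {f g : lp E 2} (h : ∀ i, ‖g i‖ ≤ ‖f i‖) : ‖g‖ ≤ ‖f‖ := by
  refine norm_le_of_sum (norm_nonneg _) fun s => ?_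
  exact (Finset.sum_le_sum fun i _ => pow_le_pow_left₀ (norm_nonneg _) (h i) 2).trans
    (sum_le_norm_sq f s)

theorem norm_add_sq_le {f g h : lp E 2} (H : ∀ i, ‖h i‖ ^ 2 ≤ ‖f i‖ ^ 2 + ‖g i‖ ^ 2) :
    ‖h‖ ^ 2 ≤ ‖f‖ ^ 2 + ‖g‖ ^ 2 := by
  rw [norm_sq h, norm_sq f, norm_sq g, ← (summable_sq f).tsum_add (summable_sq g)]
  exact (summable_sq h).tsum_le_tsum H ((summable_sq f).add (summable_sq g))

theorem norm_sub_sum (f : lp E 2) [DecidableEq α] (s : Finset α) :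
    ‖f - ∑ i ∈ s, lp.single 2 i (f i)‖ ^ 2 = ‖f‖ ^ 2 - ∑ i ∈ s, ‖f i‖ ^ 2 := by
  have := lp.norm_compl_sum_single two_pos' f s
  simpa only [two_toReal, Real.rpow_two] using this

theorem norm_sum_sq [DecidableEq α] (f : ∀ i, E i) (s : Finset α) :
    ‖∑ i ∈ s, lp.single 2 i (f i)‖ ^ 2 = ∑ i ∈ s, ‖f i‖ ^ 2 := by
  have := lp.norm_sum_single two_pos' f s
  simpa only [two_toReal, Real.rpow_two] using this

theorem tendsto_sum_single [DecidableEq α] (f : lp E 2) :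
    Tendsto (fun s : Finset α => ∑ i ∈ s, lp.single 2 i (f i)) atTop (𝓝 f) :=
  lp.hasSum_single (by norm_num) f

end

end Pool.Agent.Q178.KP
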