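import Pool.Agent.Q178.KP.A

/-!
# Spaces with a long unconditional structure: closed subspaces split into separable pieces
-/

set_option autoImplicit false

open Filter Topology TopologicalSpace

namespace Pool.Agent.Q178.KP

/-- A system of contractive coordinate projections with an upper 2-estimate. -/
structure PSys (𝕜 X Γ : Type) [RCLike 𝕜] [NormedAddCommGroup X] [NormedSpace 𝕜 X] where
  /-- the projections -/
  P : Set Γ → X →L[𝕜] X
  comp : ∀ A B x, P A (P B x) = P (A ∩ B) x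
  add : ∀ A x, P A x + P Aᶜ x = x
  contr : ∀ A x, ‖P A x‖ ≤ ‖x‖
  upper : ∀ A x y, ‖P A x + P Aᶜ y‖ ^ 2 ≤ ‖P A x‖ ^ 2 + ‖P Aᶜ y‖ ^ 2
  fin : ∀ x, ∀ ε > 0, ∃ F : Finset Γ, ‖x - P (F : Set Γ) x‖ < ε
  sep : ∀ A : Set Γ, A.Countable → IsSeparable (Set.range (P A))

namespace PSys

variable {𝕜 X Γ : Type} [RCLike 𝕜] [NormedAddCommGroup X] [NormedSpace 𝕜 X] (S : PSys 𝕜 X Γ)

include S

theorem empty (x : X) : S.P ∅ x = 0 := by
  have h := S.add Set.univ (S.P Set.univ x)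
  rw [S.comp, S.comp, Set.univ_inter, Set.compl_univ, Set.empty_inter] at h
  simpa using h

theorem compl_eq (A : Set Γ) (x : X) : S.P Aᶜ x = x - S.P A x := by
  rw [eq_sub_iff_add_eq, add_comm]; exact S.add A x

theorem fix_of_subset {A B : Set Γ} (h : A ⊆ B) {x : X} (hx : S.P A x = x) : S.P B x = x := by
  rw [← hx, S.comp, Set.inter_eq_self_of_subset_right h]

theorem zero_of_disj {A B : Set Γ} (h : A ∩ B = ∅) (x : X) : S.P A (S.P B x) = 0 := by
  rw [S.comp, h, S.empty]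

/-- Approximation is monotone. -/
theorem approx_mono {A B : Set Γ} (h : A ⊆ B) (x : X) : ‖x - S.P B x‖ ≤ ‖x - S.P A x‖ := by
  have h1 : x - S.P B x = S.P Bᶜ (x - S.P A x) := by
    rw [map_sub, S.zero_of_disj (Set.disjoint_iff_inter_eq_empty.1
      (Set.disjoint_compl_left_iff_subset.2 h)), sub_zero, S.compl_eq]
  rw [h1]
  exact S.contr _ _

/-- Countable supports. -/
theorem exists_supp (x : X) : ∃ A : Set Γ, A.Countable ∧ S.P A x = x := by
  choose F hF using fun n : ℕ => S.fin x (1 / ((n : ℝ) + 1)) (by positivity)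
  refine ⟨⋃ n, (F n : Set Γ), Set.countable_iUnion fun n => (F n).countable_toSet, ?_⟩
  have h1 : ∀ n : ℕ, ‖x - S.P (⋃ n, (F n : Set Γ)) x‖ ≤ 1 / ((n : ℝ) + 1) := fun n =>
    (S.approx_mono (Set.subset_iUnion (fun n => (F n : Set Γ)) n) x).trans (hF n).le
  have h2 : ‖x - S.P (⋃ n, (F n : Set Γ)) x‖ ≤ 0 :=
    ge_of_tendsto' tendsto_one_div_add_atTop_nhds_zero_nat h1
  have h3 := norm_le_zero_iff.1 h2
  exact (sub_eq_zero.1 h3).symm

variable (W : Submodule 𝕜 X)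

/-- The criterion for invariance. -/
theorem inv_of_dist (hW : IsClosed (W : Set X)) {A : Set Γ}
    (hA : ∀ x, S.P A x = x → ∀ ε > 0, ∃ w ∈ W, S.P A w = w ∧
      ‖x - w‖ ≤ Metric.infDist x (W : Set X) + ε) {w : X} (hw : w ∈ W) : S.P A w ∈ W := by
  set z := S.P A w with hz
  set y := S.P Aᶜ w with hy
  set δ := Metric.infDist z (W : Set X) with hδ
  have hδ0 : 0 ≤ δ := Metric.infDist_nonneg
  have hne : (W : Set X).Nonempty := ⟨0, W.zero_mem⟩
  have hzz : S.P A z = z := by rw [hz, S.comp, Set.inter_self]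
  have key : ∀ t : ℕ, ∀ ε > 0, ((t + 1 : ℝ) * δ) ^ 2 ≤ ((t : ℝ) * (δ + ε)) ^ 2 + ‖y‖ ^ 2 := by
    intro t ε hε
    obtain ⟨v, hvW, hvA, hv⟩ := hA z hzz ε hε
    -- the point `(t + 1) z` minus an element of `W`
    have h1 : ((t : 𝕜) + 1) • z - ((t : 𝕜) • v + w) =
        S.P A ((t : 𝕜) • (z - v)) + S.P Aᶜ (-w) := by
      rw [map_smul, map_sub, hzz, hvA, map_neg, ← hy]
      have h2 : w = z + y := (S.add A w).symm
      rw [add_smul, one_smul, smul_sub]
      nth_rewrite 1 [h2]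
      abel
    have h3 : ((t + 1 : ℝ)) * δ ≤ ‖((t : 𝕜) + 1) • z - ((t : 𝕜) • v + w)‖ := by
      have ht : ((t : 𝕜) + 1) ≠ 0 := by
        have : ((t : 𝕜) + 1) = ((t + 1 : ℕ) : 𝕜) := by push_cast; ring
        rw [this]
        exact Nat.cast_ne_zero.2 (Nat.succ_ne_zero t)
      have hnt : ‖(t : 𝕜) + 1‖ = (t : ℝ) + 1 := by
        have : ((t : 𝕜) + 1) = ((t + 1 : ℕ) : 𝕜) := by push_cast; ring
        rw [this, RCLike.norm_natCast]
        push_cast; ring
      have h4 : ((t : 𝕜) + 1) • z - ((t : 𝕜) • v + w) =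
          ((t : 𝕜) + 1) • (z - ((t : 𝕜) + 1)⁻¹ • ((t : 𝕜) • v + w)) := by
        rw [smul_sub, smul_smul, mul_inv_cancel₀ ht, one_smul]
      rw [h4, norm_smul, hnt]
      refine mul_le_mul_of_nonneg_left ?_ (by positivity)
      rw [hδ, ← dist_eq_norm]
      exact Metric.infDist_le_dist_of_mem (W.smul_mem _ (W.add_mem (W.smul_mem _ hvW) hw))
    have h5 : ‖((t : 𝕜) + 1) • z - ((t : 𝕜) • v + w)‖ ^ 2 ≤
        ((t : ℝ) * (δ + ε)) ^ 2 + ‖y‖ ^ 2 := by
      rw [h1]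
      refine (S.upper _ _ _).trans (add_le_add ?_ ?_)
      · refine pow_le_pow_left₀ (norm_nonneg _) ?_ 2
        refine (S.contr _ _).trans ?_
        rw [norm_smul, RCLike.norm_natCast]
        exact mul_le_mul_of_nonneg_left hv (Nat.cast_nonneg t)
      · rw [map_neg, norm_neg]
    exact (pow_le_pow_left₀ (by positivity) h3 2).trans h5
  have key2 : ∀ t : ℕ, ((t + 1 : ℝ) * δ) ^ 2 ≤ ((t : ℝ) * δ) ^ 2 + ‖y‖ ^ 2 := by
    intro t
    have hlim : Tendsto (fun n : ℕ => ((t : ℝ) * (δ + 1 / ((n : ℝ) + 1))) ^ 2 + ‖y‖ ^ 2) atTop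
        (𝓝 (((t : ℝ) * (δ + 0)) ^ 2 + ‖y‖ ^ 2)) :=
      (((tendsto_one_div_add_atTop_nhds_zero_nat.const_add δ).const_mul (t : ℝ)).pow 2).add_const _
    rw [add_zero] at hlim
    exact ge_of_tendsto' hlim fun n => key t _ (by positivity)
  have hδ00 : δ = 0 := by
    by_contra hne0
    have hpos : 0 < δ := lt_of_le_of_ne hδ0 (Ne.symm hne0)
    obtain ⟨t, ht⟩ := exists_nat_gt (‖y‖ ^ 2 / δ ^ 2)
    rw [div_lt_iff₀ (by positivity)] at ht
    have := key2 t
    have h6 : 0 ≤ (t : ℝ) * δ ^ 2 := by positivity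
    nlinarith
  have hmem : z ∈ closure (W : Set X) := (Metric.mem_closure_iff_infDist_zero hne).2 hδ00
  rw [hW.closure_eq] at hmem
  exact hmem

/-- The countable set of indices attached to a finite set. -/
theorem exists_c (W : Submodule 𝕜 X) : ∃ c : Finset Γ → Set Γ, (∀ F, (c F).Countable) ∧
    ∀ A : Set Γ, (∀ F : Finset Γ, (F : Set Γ) ⊆ A → c F ⊆ A) →
      ∀ x, S.P A x = x → ∀ ε > 0, ∃ w ∈ W, S.P A w = w ∧
        ‖x - w‖ ≤ Metric.infDist x (W : Set X) + ε := by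
  have hne : (W : Set X).Nonempty := ⟨0, W.zero_mem⟩
  have hD : ∀ F : Finset Γ, ∃ D : ℕ → X, ∀ x ∈ Set.range (S.P (F : Set Γ)), ∀ ε > 0, ∃ m,
      ‖x - D m‖ < ε := by
    intro F
    obtain ⟨t, -, htc, ht⟩ := (S.sep F F.countable_toSet).exists_countable_dense_subset
    have htne : t.Nonempty := by
      by_contra hcon
      rw [Set.not_nonempty_iff_eq_empty] at hcon
      rw [hcon, closure_empty] at ht
      exact ht ⟨0, rfl⟩
    obtain ⟨D, hD⟩ := htc.exists_eq_range htne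
    refine ⟨D, fun x hx ε hε => ?_⟩
    obtain ⟨y, hy, hxy⟩ := Metric.mem_closure_iff.1 (ht hx) ε hε
    rw [hD] at hy
    obtain ⟨m, rfl⟩ := hy
    exact ⟨m, by rwa [← dist_eq_norm]⟩
  choose D hD using hD
  have hw : ∀ (x : X) (k : ℕ), ∃ w ∈ W, ‖x - w‖ < Metric.infDist x (W : Set X) +
      1 / ((k : ℝ) + 1) := by
    intro x k
    obtain ⟨w, hw1, hw2⟩ := (Metric.infDist_lt_iff (x := x)
      (r := Metric.infDist x (W : Set X) + 1 / ((k : ℝ) + 1)) hne).1
      (by have : 0 < 1 / ((k : ℝ) + 1) := by positivity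
          linarith)
    exact ⟨w, hw1, by rwa [← dist_eq_norm]⟩
  choose w hw1 hw2 using hw
  choose s hs1 hs2 using S.exists_supp
  refine ⟨fun F => ⋃ m : ℕ, ⋃ k : ℕ, s (w (D F m) k), fun F => Set.countable_iUnion fun m =>
    Set.countable_iUnion fun k => hs1 _, ?_⟩
  intro A hA x hx ε hε
  obtain ⟨F0, hF0⟩ := S.fin x (ε / 5) (by positivity)
  classical
  have hfin : ((F0 : Set Γ) ∩ A).Finite := F0.finite_toSet.inter_of_left A
  set F : Finset Γ := hfin.toFinset with hF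
  have hFA : (F : Set Γ) ⊆ A := by
    rw [hF, hfin.coe_toFinset]; exact Set.inter_subset_right
  have hxF : ‖x - S.P (F : Set Γ) x‖ < ε / 5 := by
    have : S.P (F : Set Γ) x = S.P (F0 : Set Γ) x := by
      rw [hF, hfin.coe_toFinset, ← S.comp, hx]
    rw [this]; exact hF0
  obtain ⟨m, hm⟩ := hD F (S.P (F : Set Γ) x) ⟨x, rfl⟩ (ε / 5) (by positivity)
  obtain ⟨k, hk⟩ := exists_nat_one_div_lt (show 0 < ε / 5 by positivity)
  have hxD : ‖x - D F m‖ < 2 * ε / 5 := by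
    have := norm_add_le (x - S.P (F : Set Γ) x) (S.P (F : Set Γ) x - D F m)
    rw [sub_add_sub_cancel] at this
    linarith
  refine ⟨w (D F m) k, hw1 _ _, ?_, ?_⟩
  · refine S.fix_of_subset ?_ (hs2 _)
    refine Set.Subset.trans ?_ (hA F hFA)
    exact Set.subset_iUnion_of_subset m (Set.subset_iUnion_of_subset k Set.Subset.rfl)
  · have h1 := hw2 (D F m) k
    have h2 : Metric.infDist (D F m) (W : Set X) ≤ Metric.infDist x (W : Set X) +
        dist (D F m) x := Metric.infDist_le_infDist_add_dist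
    rw [dist_comm, dist_eq_norm] at h2
    have h3 := norm_add_le (x - D F m) (D F m - w (D F m) k)
    rw [sub_add_sub_cancel] at h3
    linarith

end PSys

/-- Countable closure. -/
theorem exists_closed {Γ : Type} (c : Finset Γ → Set Γ) (hc : ∀ F, (c F).Countable)
    {A : Set Γ} (hA : A.Countable) : ∃ B : Set Γ, A ⊆ B ∧ B.Countable ∧
      ∀ F : Finset Γ, (F : Set Γ) ⊆ B → c F ⊆ B := by
  classical
  let step : Set Γ → Set Γ := fun B => B ∪ ⋃ F ∈ {F : Finset Γ | (F : Set Γ) ⊆ B}, c F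
  have hstep : ∀ B : Set Γ, B.Countable → (step B).Countable := by
    intro B hB
    refine hB.union ?_
    refine Set.Countable.biUnion ?_ fun F _ => hc F
    have h1 := Set.countable_ofPred_finite_subset hB
    refine (h1.preimage_of_injOn (f := fun F : Finset Γ => (F : Set Γ))
      Finset.coe_injective.injOn).mono ?_
    intro F hF
    exact ⟨F.finite_toSet, hF⟩
  let B : ℕ → Set Γ := fun n => step^[n] A
  have hBs : ∀ n, B (n + 1) = step (B n) := fun n => Function.iterate_succ_apply' step n A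
  have hBm : Monotone B := monotone_nat_of_le_succ fun n => by
    rw [hBs]; exact Set.subset_union_left
  have hBc : ∀ n, (B n).Countable := by
    intro n
    induction n with
    | zero => exact hA
    | succ n ih => rw [hBs]; exact hstep _ ih
  refine ⟨⋃ n, B n, Set.subset_iUnion B 0, Set.countable_iUnion hBc, fun F hF => ?_⟩
  have hex : ∃ n, (F : Set Γ) ⊆ B n := by
    have h1 : ∀ γ ∈ F, ∃ n, γ ∈ B n := fun γ hγ => Set.mem_iUnion.1 (hF hγ)
    choose! n hn using h1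
    refine ⟨F.sup n, fun γ hγ => hBm (Finset.le_sup hγ) (hn γ hγ)⟩
  obtain ⟨n, hn⟩ := hex
  refine Set.Subset.trans ?_ (Set.subset_iUnion B (n + 1))
  rw [hBs]
  exact Set.Subset.trans (Set.subset_biUnion_of_mem (u := c) (show F ∈ {F : Finset Γ |
    (F : Set Γ) ⊆ B n} from hn)) Set.subset_union_right

namespace PSys

variable {𝕜 X Γ : Type} [RCLike 𝕜] [NormedAddCommGroup X] [NormedSpace 𝕜 X] (S : PSys 𝕜 X Γ)

/-- Every closed subspace is invariant under the projections of a partition into countable sets. -/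
theorem exists_partition [LinearOrder Γ] [WellFoundedLT Γ] (hΓ : ∀ i : Γ, (Set.Iic i).Countable)
    (W : Submodule 𝕜 X) (hW : IsClosed (W : Set X)) :
    ∃ ρ : Γ → Γ, (∀ i, (ρ ⁻¹' {i}).Countable) ∧ ∀ i, ∀ w ∈ W, S.P (ρ ⁻¹' {i}) w ∈ W := by
  classical
  obtain ⟨c, hc, hcA⟩ := S.exists_c W
  let Cd : Set Γ → Prop := fun A => ∀ F : Finset Γ, (F : Set Γ) ⊆ A → c F ⊆ A
  have hinv : ∀ A, Cd A → ∀ w ∈ W, S.P A w ∈ W := fun A hA w hw =>
    S.inv_of_dist W hW (hcA A hA) hw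
  let B : Γ → Set Γ := fun i => ⋂₀ {B | Cd B ∧ Set.Iic i ⊆ B}
  have hBc : ∀ i, Cd (B i) := by
    intro i F hF
    refine Set.subset_sInter ?_
    rintro B' ⟨h1, h2⟩
    exact h1 F (hF.trans (Set.sInter_subset_of_mem ⟨h1, h2⟩))
  have hBi : ∀ i, Set.Iic i ⊆ B i := fun i => Set.subset_sInter fun B' h => h.2
  have hBm : ∀ {i j}, i ≤ j → B i ⊆ B j := by
    intro i j hij
    refine Set.subset_sInter ?_
    rintro B' ⟨h1, h2⟩
    exact Set.sInter_subset_of_mem ⟨h1, (Set.Iic_subset_Iic.2 hij).trans h2⟩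
  have hBn : ∀ i, (B i).Countable := by
    intro i
    obtain ⟨B', h1, h2, h3⟩ := exists_closed c hc (hΓ i)
    exact h2.mono (Set.sInter_subset_of_mem ⟨h3, h1⟩)
  let L : Γ → Set Γ := fun i => ⋃ j ∈ Set.Iio i, B j
  have hLinv : ∀ i, ∀ w ∈ W, S.P (L i) w ∈ W := by
    intro i w hw
    by_cases hi : ∃ j, j < i
    · obtain ⟨j0, hj0⟩ := hi
      refine hinv _ ?_ w hw
      intro F hF
      have hex : ∃ j < i, (F : Set Γ) ⊆ B j := by
        have h1 : ∀ γ ∈ F, ∃ j, j < i ∧ γ ∈ B j := by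
          intro γ hγ
          obtain ⟨j, hj, hγj⟩ := Set.mem_iUnion₂.1 (hF hγ)
          exact ⟨j, hj, hγj⟩
        choose! n hn1 hn2 using h1
        rcases F.eq_empty_or_nonempty with rfl | hFne
        · exact ⟨j0, hj0, by simp⟩
        · refine ⟨F.sup' hFne n, ?_, ?_⟩
          · rw [Finset.sup'_lt_iff]
            exact fun γ hγ => hn1 γ hγ
          · intro γ hγ
            exact hBm (Finset.le_sup' n hγ) (hn2 γ hγ)
      obtain ⟨j, hj, hFj⟩ := hex
      exact (hBc j F hFj).trans (Set.subset_biUnion_of_mem (u := B) (show j ∈ Set.Iio i from hj))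
    · have : L i = ∅ := by
        refine Set.eq_empty_of_forall_notMem fun γ hγ => ?_
        obtain ⟨j, hj, -⟩ := Set.mem_iUnion₂.1 hγ
        exact hi ⟨j, hj⟩
      rw [this, S.empty]
      exact W.zero_mem
  have hex : ∀ γ, ({i | γ ∈ B i} : Set Γ).Nonempty := fun γ => ⟨γ, hBi γ (Set.mem_Iic.2 le_rfl)⟩
  let ρ : Γ → Γ := fun γ => (wellFounded_lt (α := Γ)).min {i | γ ∈ B i} (hex γ)
  have hρ1 : ∀ γ, γ ∈ B (ρ γ) := fun γ => (wellFounded_lt (α := Γ)).min_mem _ (hex γ)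
  have hρ2 : ∀ γ i, i < ρ γ → γ ∉ B i := fun γ i hi h =>
    (wellFounded_lt (α := Γ)).not_lt_min {i | γ ∈ B i} h hi
  have hpre : ∀ i, ρ ⁻¹' {i} = B i ∩ (L i)ᶜ := by
    intro i
    ext γ
    constructor
    · intro h
      have h' : ρ γ = i := h
      refine ⟨h' ▸ hρ1 γ, fun hL => ?_⟩
      obtain ⟨j, hj, hγj⟩ := Set.mem_iUnion₂.1 hL
      exact hρ2 γ j (by rw [h']; exact hj) hγj
    · rintro ⟨h1, h2⟩
      show ρ γ = i
      rcases lt_trichotomy (ρ γ) i with h | h | h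
      · exact absurd (Set.mem_iUnion₂.2 ⟨ρ γ, h, hρ1 γ⟩) h2
      · exact h
      · exact absurd h1 (hρ2 γ i h)
  refine ⟨ρ, fun i => ?_, fun i w hw => ?_⟩
  · rw [hpre]
    exact (hBn i).mono Set.inter_subset_left
  · rw [hpre, ← S.comp]
    refine hinv _ (hBc i) _ ?_
    rw [S.compl_eq]
    exact W.sub_mem hw (hLinv i w hw)

end PSys

end Pool.Agent.Q178.KP
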