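import Pool.Agent.Q178.KP.B

/-!
# Square summable total families of functionals
-/

set_option autoImplicit false

open Filter Topology TopologicalSpace
open scoped ComplexConjugate

namespace Pool.Agent.Q178.KP

namespace PSys

variable {𝕜 X Γ : Type} [RCLike 𝕜] [NormedAddCommGroup X] [NormedSpace 𝕜 X] (S : PSys 𝕜 X Γ)

include S

/-- The upper 2-estimate for finitely many disjoint vectors. -/
theorem upper_sum {A : Γ → Set Γ} (hA : ∀ i j, i ≠ j → A i ∩ A j = ∅) {y : Γ → X}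
    (hy : ∀ i, S.P (A i) (y i) = y i) (I : Finset Γ) :
    ‖∑ i ∈ I, y i‖ ^ 2 ≤ ∑ i ∈ I, ‖y i‖ ^ 2 := by
  classical
  induction I using Finset.induction_on with
  | empty => simp
  | insert i I hi ih =>
    rw [Finset.sum_insert hi, Finset.sum_insert hi]
    have h1 : S.P (A i)ᶜ (∑ j ∈ I, y j) = ∑ j ∈ I, y j := by
      rw [map_sum]
      refine Finset.sum_congr rfl fun j hj => ?_
      refine S.fix_of_subset ?_ (hy j)
      have hne : i ≠ j := by rintro rfl; exact hi hj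
      rw [Set.subset_compl_iff_disjoint_left, Set.disjoint_iff_inter_eq_empty]
      exact hA i j hne
    have h2 := S.upper (A i) (y i) (∑ j ∈ I, y j)
    rw [hy, h1] at h2
    linarith

theorem functional_sum {A : Γ → Set Γ} (hA : ∀ i j, i ≠ j → A i ∩ A j = ∅) {u : Γ → X}
    (hu : ∀ i, S.P (A i) (u i) = u i) (hu1 : ∀ i, ‖u i‖ ≤ 1) (f : StrongDual 𝕜 X) (I : Finset Γ) :
    ∑ i ∈ I, ‖f (u i)‖ ^ 2 ≤ ‖f‖ ^ 2 := by
  set s := ∑ i ∈ I, ‖f (u i)‖ ^ 2 with hs
  have hs0 : 0 ≤ s := Finset.sum_nonneg fun _ _ => by positivity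
  set y : Γ → X := fun i => conj (f (u i)) • u i with hy
  have h1 : ‖∑ i ∈ I, y i‖ ^ 2 ≤ s := by
    refine (S.upper_sum hA (y := y) (fun i => by rw [hy]; simp only [map_smul, hu]) I).trans ?_
    refine Finset.sum_le_sum fun i _ => ?_
    rw [hy]
    simp only [norm_smul, RCLike.norm_conj]
    refine pow_le_pow_left₀ (by positivity) ?_ 2
    exact mul_le_of_le_one_right (norm_nonneg _) (hu1 i)
  have h2 : f (∑ i ∈ I, y i) = (s : 𝕜) := by
    rw [map_sum, hs, RCLike.ofReal_sum]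
    refine Finset.sum_congr rfl fun i _ => ?_
    rw [hy]
    simp only [map_smul, smul_eq_mul]
    rw [RCLike.conj_mul]
    push_cast
    rfl
  have h3 : s ≤ ‖f‖ * ‖∑ i ∈ I, y i‖ := by
    have := f.le_opNorm (∑ i ∈ I, y i)
    rw [h2, RCLike.norm_ofReal, abs_of_nonneg hs0] at this
    exact this
  have h4 : ‖∑ i ∈ I, y i‖ ≤ √s := by
    rw [← Real.sqrt_sq (norm_nonneg (∑ i ∈ I, y i))]
    exact Real.sqrt_le_sqrt h1
  have h5 : s ≤ ‖f‖ * √s := h3.trans (mul_le_mul_of_nonneg_left h4 (norm_nonneg _))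
  rcases hs0.eq_or_lt with h0 | h0
  · rw [← h0]; positivity
  · have h6 : 0 < √s := Real.sqrt_pos.2 h0
    have h7 : √s * √s = s := Real.mul_self_sqrt hs0
    have h8 : √s ≤ ‖f‖ := by
      by_contra hcon
      push Not at hcon
      nlinarith
    calc s = √s ^ 2 := by rw [sq, h7]
      _ ≤ ‖f‖ ^ 2 := pow_le_pow_left₀ h6.le h8 2

/-- The vectors defining the operator. -/
theorem exists_vectors [LinearOrder Γ] [WellFoundedLT Γ] (hΓ : ∀ i : Γ, (Set.Iic i).Countable)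
    (W : Submodule 𝕜 X) (hW : IsClosed (W : Set X)) :
    ∃ u : Γ → ℕ → X, (∀ i n, u i n ∈ W) ∧
      (∀ (f : StrongDual 𝕜 X) (n : ℕ) (I : Finset Γ), ∑ i ∈ I, ‖f (u i n)‖ ^ 2 ≤ ‖f‖ ^ 2) ∧
      ∀ f : StrongDual 𝕜 X, (∀ i n, f (u i n) = 0) → ∀ w ∈ W, f w = 0 := by
  classical
  obtain ⟨ρ, hρ1, hρ2⟩ := S.exists_partition hΓ W hW
  have hdisj : ∀ i j, i ≠ j → ρ ⁻¹' {i} ∩ ρ ⁻¹' {j} = ∅ := by
    intro i j hij
    refine Set.eq_empty_of_forall_notMem ?_
    rintro γ ⟨h1, h2⟩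
    exact hij (h1.symm.trans h2)
  have hex : ∀ i, ∃ u : ℕ → X, (∀ n, u n ∈ W) ∧ (∀ n, S.P (ρ ⁻¹' {i}) (u n) = u n) ∧
      (∀ n, ‖u n‖ ≤ 1) ∧ ∀ w ∈ W, S.P (ρ ⁻¹' {i}) w = w → ‖w‖ ≤ 1 →
        w ∈ closure (Set.range u) := by
    intro i
    let B : Set X := {w | w ∈ W ∧ S.P (ρ ⁻¹' {i}) w = w ∧ ‖w‖ ≤ 1}
    have hB : IsSeparable B := (S.sep _ (hρ1 i)).mono fun w hw => ⟨w, hw.2.1⟩
    obtain ⟨t, htB, htc, ht⟩ := hB.exists_countable_dense_subset
    have h0B : (0 : X) ∈ B := ⟨W.zero_mem, map_zero _, by simp⟩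
    have htne : t.Nonempty := by
      by_contra hcon
      rw [Set.not_nonempty_iff_eq_empty] at hcon
      rw [hcon, closure_empty] at ht
      exact ht h0B
    obtain ⟨u, hu⟩ := htc.exists_eq_range htne
    have huB : ∀ n, u n ∈ B := fun n => htB (by rw [hu]; exact ⟨n, rfl⟩)
    refine ⟨u, fun n => (huB n).1, fun n => (huB n).2.1, fun n => (huB n).2.2, ?_⟩
    intro w hw1 hw2 hw3
    rw [← hu]
    exact ht ⟨hw1, hw2, hw3⟩
  choose u hu1 hu2 hu3 hu4 using hex
  refine ⟨u, hu1, fun f n I => ?_, fun f hf w hw => ?_⟩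
  · exact S.functional_sum hdisj (u := fun i => u i n) (fun i => hu2 i n) (fun i => hu3 i n) f I
  · -- `f` vanishes on the pieces
    have hpiece : ∀ i, f (S.P (ρ ⁻¹' {i}) w) = 0 := by
      intro i
      set z := S.P (ρ ⁻¹' {i}) w with hz
      have hzW : z ∈ W := hρ2 i w hw
      have hzz : S.P (ρ ⁻¹' {i}) z = z := by rw [hz, S.comp, Set.inter_self]
      have hcl : ∀ v ∈ closure (Set.range (u i)), f v = 0 := by
        intro v hv
        have : closure (Set.range (u i)) ⊆ {v | f v = 0} := by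
          refine closure_minimal ?_ (isClosed_eq f.continuous continuous_const)
          rintro _ ⟨n, rfl⟩
          exact hf i n
        exact this hv
      rcases eq_or_ne z 0 with h0 | h0
      · rw [h0, map_zero]
      · have hnz : 0 < ‖z‖ := norm_pos_iff.2 h0
        have h1 := hcl (((‖z‖⁻¹ : ℝ) : 𝕜) • z) (hu4 i _ (W.smul_mem _ hzW)
          (by rw [map_smul, hzz]) (by
            rw [norm_smul, RCLike.norm_ofReal, abs_of_pos (inv_pos.2 hnz),
              inv_mul_cancel₀ hnz.ne']))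
        rw [map_smul, smul_eq_mul, mul_eq_zero] at h1
        rcases h1 with h1 | h1
        · exact absurd (RCLike.ofReal_eq_zero.1 h1) (inv_pos.2 hnz).ne'
        · exact h1
    -- approximation
    have happ : ∀ ε > 0, ‖f w‖ ≤ ‖f‖ * ε := by
      intro ε hε
      obtain ⟨F, hF⟩ := S.fin w ε hε
      set G : Finset Γ := F.image ρ with hG
      have hsum : ∀ G : Finset Γ, S.P (ρ ⁻¹' (G : Set Γ)) w = ∑ i ∈ G, S.P (ρ ⁻¹' {i}) w := by
        intro G
        induction G using Finset.induction_on with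
        | empty => simp [S.empty]
        | insert i G hi ih =>
          rw [Finset.sum_insert hi, ← ih]
          have e1 := S.add (ρ ⁻¹' {i}) (S.P (ρ ⁻¹' ((insert i G : Finset Γ) : Set Γ)) w)
          rw [S.comp, S.comp] at e1
          rw [← e1]
          congr 2
          · congr 1
            ext γ; simp only [Set.mem_inter_iff, Set.mem_preimage, Set.mem_singleton_iff,
              Finset.coe_insert, Set.mem_insert_iff, Finset.mem_coe]; tauto
          · congr 1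
            ext γ
            simp only [Set.mem_inter_iff, Set.mem_preimage, Set.mem_singleton_iff,
              Finset.coe_insert, Set.mem_insert_iff, Finset.mem_coe, Set.mem_compl_iff]
            constructor
            · rintro ⟨h1, h2⟩; exact h2.resolve_left h1
            · intro h; exact ⟨fun h' => hi (h' ▸ h), Or.inr h⟩
      have h1 : f (S.P (ρ ⁻¹' (G : Set Γ)) w) = 0 := by
        rw [hsum, map_sum]
        exact Finset.sum_eq_zero fun i _ => hpiece i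
      have h2 : ‖w - S.P (ρ ⁻¹' (G : Set Γ)) w‖ < ε := by
        refine lt_of_le_of_lt (S.approx_mono ?_ w) hF
        intro γ hγ
        show ρ γ ∈ (G : Set Γ)
        rw [hG, Finset.coe_image]
        exact ⟨γ, hγ, rfl⟩
      calc ‖f w‖ = ‖f (w - S.P (ρ ⁻¹' (G : Set Γ)) w)‖ := by rw [map_sub, h1, sub_zero]
        _ ≤ ‖f‖ * ‖w - S.P (ρ ⁻¹' (G : Set Γ)) w‖ := f.le_opNorm _
        _ ≤ ‖f‖ * ε := mul_le_mul_of_nonneg_left h2.le (norm_nonneg _)
    have hlim : Tendsto (fun n : ℕ => ‖f‖ * (1 / ((n : ℝ) + 1))) atTop (𝓝 (‖f‖ * 0)) :=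
      tendsto_one_div_add_atTop_nhds_zero_nat.const_mul _
    rw [mul_zero] at hlim
    exact norm_le_zero_iff.1 (ge_of_tendsto' hlim fun n => happ _ (by positivity))

/-- The operator on the dual space: given a bounded operator `R : X → ℓ₂(Γ × ℕ)` whose range
contains the unit vectors, every closed subspace of the dual which is an annihilator is a kernel. -/
theorem exists_operator [LinearOrder Γ] [WellFoundedLT Γ] (hΓ : ∀ i : Γ, (Set.Iic i).Countable)
    (R : X →L[𝕜] lp (fun _ : Γ × ℕ => 𝕜) 2)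
    (hR : ∀ j : Γ × ℕ, ∃ x, ∀ v : lp (fun _ : Γ × ℕ => 𝕜) 2, inner 𝕜 v (R x) = conj (v j))
    (W : Submodule 𝕜 X) (hW : IsClosed (W : Set X)) :
    ∃ T : StrongDual 𝕜 X →L[𝕜] StrongDual 𝕜 X, ∀ f, T f = 0 ↔ ∀ w ∈ W, f w = 0 := by
  classical
  obtain ⟨u, hu1, hu2, hu3⟩ := S.exists_vectors hΓ W hW
  have hgeom : ∀ s : Finset ℕ, ∑ n ∈ s, ((1 / 4 : ℝ)) ^ (n + 1) ≤ 1 := by
    intro s
    have h1 : Summable fun n : ℕ => (1 / 4 : ℝ) ^ (n + 1) := by
      simp only [pow_succ]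
      exact (summable_geometric_of_lt_one (by norm_num) (by norm_num)).mul_right _
    refine (h1.sum_le_tsum s fun _ _ => by positivity).trans ?_
    simp only [pow_succ]
    rw [tsum_mul_right, tsum_geometric_of_lt_one (by norm_num) (by norm_num)]
    norm_num
  have hbd : ∀ (f : StrongDual 𝕜 X) (s : Finset (Γ × ℕ)),
      ∑ j ∈ s, ‖((1 / 2 : 𝕜)) ^ (j.2 + 1) * conj (f (u j.1 j.2))‖ ^ 2 ≤ ‖f‖ ^ 2 := by
    intro f s
    have e : ∀ j : Γ × ℕ, ‖((1 / 2 : 𝕜)) ^ (j.2 + 1) * conj (f (u j.1 j.2))‖ ^ 2 =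
        (1 / 4 : ℝ) ^ (j.2 + 1) * ‖f (u j.1 j.2)‖ ^ 2 := by
      intro j
      rw [norm_mul, RCLike.norm_conj, norm_pow, mul_pow, ← pow_mul, mul_comm (j.2 + 1) 2, pow_mul]
      congr 2
      rw [norm_div, norm_one, RCLike.norm_ofNat]
      norm_num
    simp only [e]
    calc ∑ j ∈ s, (1 / 4 : ℝ) ^ (j.2 + 1) * ‖f (u j.1 j.2)‖ ^ 2
        ≤ ∑ j ∈ (s.image Prod.fst) ×ˢ (s.image Prod.snd),
            (1 / 4 : ℝ) ^ (j.2 + 1) * ‖f (u j.1 j.2)‖ ^ 2 := by
          refine Finset.sum_le_sum_of_subset_of_nonneg ?_ fun _ _ _ => by positivity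
          intro j hj
          exact Finset.mem_product.2 ⟨Finset.mem_image_of_mem _ hj, Finset.mem_image_of_mem _ hj⟩
      _ = ∑ n ∈ s.image Prod.snd, (1 / 4 : ℝ) ^ (n + 1) *
            ∑ i ∈ s.image Prod.fst, ‖f (u i n)‖ ^ 2 := by
          rw [Finset.sum_product_right]
          refine Finset.sum_congr rfl fun n _ => ?_
          rw [Finset.mul_sum]
      _ ≤ ∑ n ∈ s.image Prod.snd, (1 / 4 : ℝ) ^ (n + 1) * ‖f‖ ^ 2 :=
          Finset.sum_le_sum fun n _ => mul_le_mul_of_nonneg_left (hu2 f n _) (by positivity)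
      _ ≤ 1 * ‖f‖ ^ 2 := by
          rw [← Finset.sum_mul]
          exact mul_le_mul_of_nonneg_right (hgeom _) (by positivity)
      _ = ‖f‖ ^ 2 := one_mul _
  let Θ : StrongDual 𝕜 X → lp (fun _ : Γ × ℕ => 𝕜) 2 := fun f =>
    ⟨fun j => ((1 / 2 : 𝕜)) ^ (j.2 + 1) * conj (f (u j.1 j.2)), mem_of_bound (hbd f)⟩
  have hΘ : ∀ f j, Θ f j = ((1 / 2 : 𝕜)) ^ (j.2 + 1) * conj (f (u j.1 j.2)) := fun f j => rfl
  have hΘn : ∀ f, ‖Θ f‖ ≤ ‖f‖ := fun f => norm_le_of_sum (norm_nonneg _) (hbd f)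
  have hΘa : ∀ f g, Θ (f + g) = Θ f + Θ g := by
    intro f g
    ext j
    rw [lp.coeFn_add, Pi.add_apply, hΘ, hΘ, hΘ, _root_.add_apply, map_add, mul_add]
  have hΘs : ∀ (c : 𝕜) f, Θ (c • f) = conj c • Θ f := by
    intro c f
    ext j
    rw [lp.coeFn_smul, Pi.smul_apply, hΘ, hΘ, _root_.smul_apply, smul_eq_mul,
      smul_eq_mul, map_mul]
    ring
  let T0 : StrongDual 𝕜 X →ₗ[𝕜] StrongDual 𝕜 X :=
    { toFun := fun f => (innerSL 𝕜 (Θ f)).comp R
      map_add' := fun f g => by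
        rw [hΘa, map_add, ContinuousLinearMap.add_comp]
      map_smul' := fun c f => by
        rw [hΘs, map_smulₛₗ, RCLike.conj_conj, ContinuousLinearMap.smul_comp, RingHom.id_apply] }
  have hT0 : ∀ f, ‖T0 f‖ ≤ ‖R‖ * ‖f‖ := by
    intro f
    refine (ContinuousLinearMap.opNorm_comp_le _ _).trans ?_
    rw [innerSL_apply_norm, mul_comm]
    exact mul_le_mul_of_nonneg_left (hΘn f) (norm_nonneg _)
  refine ⟨T0.mkContinuous ‖R‖ hT0, fun f => ⟨fun h => ?_, fun h => ?_⟩⟩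
  · refine hu3 f fun i n => ?_
    obtain ⟨x, hx⟩ := hR (i, n)
    have h1 : inner 𝕜 (Θ f) (R x) = 0 := by
      have : (T0.mkContinuous ‖R‖ hT0 f) x = 0 := by rw [h]; rfl
      exact this
    rw [hx, hΘ] at h1
    have h2 : ((1 / 2 : 𝕜)) ^ (n + 1) * conj (f (u i n)) = 0 := by
      have := congrArg conj h1
      rwa [RCLike.conj_conj, map_zero] at this
    rcases mul_eq_zero.1 h2 with h3 | h3
    · exact absurd h3 (pow_ne_zero _ (by norm_num))
    · have := congrArg conj h3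
      rwa [RCLike.conj_conj, map_zero] at this
  · have h1 : Θ f = 0 := by
      ext j
      rw [hΘ, h _ (hu1 _ _), map_zero, mul_zero]
      rfl
    show T0 f = 0
    show (innerSL 𝕜 (Θ f)).comp R = 0
    rw [h1, map_zero, ContinuousLinearMap.zero_comp]

end PSys

end Pool.Agent.Q178.KP
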