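import Pool.Agent.Q178.KP.C

/-!
# The concrete space
-/

set_option autoImplicit false

open Filter Topology TopologicalSpace
open scoped ComplexConjugate

namespace Pool.Agent.Q178.KP

noncomputable section

variable (𝕜 : Type) [RCLike 𝕜] (Γ : Type)

/-- The Hilbert space. -/
abbrev L2 := lp (fun _ : Γ => 𝕜) 2

/-- The Hilbert space with the norm `max (‖x‖_∞, 2^{-n} ‖x‖_2)`. -/
def Rn (_n : ℕ) : Type := L2 𝕜 Γ

variable {𝕜 Γ}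
variable {n : ℕ}

instance : AddCommGroup (Rn 𝕜 Γ n) := inferInstanceAs (AddCommGroup (L2 𝕜 Γ))
instance : Module 𝕜 (Rn 𝕜 Γ n) := inferInstanceAs (Module 𝕜 (L2 𝕜 Γ))

variable (𝕜 Γ n) in
/-- The identity as a linear equivalence. -/
def toL : Rn 𝕜 Γ n ≃ₗ[𝕜] L2 𝕜 Γ := LinearEquiv.refl 𝕜 (L2 𝕜 Γ)

instance : Norm (Rn 𝕜 Γ n) :=
  ⟨fun x => max (⨆ γ, ‖toL 𝕜 Γ n x γ‖) ((1 / 2) ^ n * ‖toL 𝕜 Γ n x‖)⟩

theorem rn_norm (x : Rn 𝕜 Γ n) :
    ‖x‖ = max (⨆ γ, ‖toL 𝕜 Γ n x γ‖) ((1 / 2) ^ n * ‖toL 𝕜 Γ n x‖) := rfl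

theorem rn_bdd (x : Rn 𝕜 Γ n) : BddAbove (Set.range fun γ => ‖toL 𝕜 Γ n x γ‖) :=
  ⟨‖toL 𝕜 Γ n x‖, by rintro _ ⟨γ, rfl⟩; exact apply_le _ γ⟩

theorem rn_le_iff (x : Rn 𝕜 Γ n) {C : ℝ} (hC : 0 ≤ C) :
    ‖x‖ ≤ C ↔ (∀ γ, ‖toL 𝕜 Γ n x γ‖ ≤ C) ∧ (1 / 2) ^ n * ‖toL 𝕜 Γ n x‖ ≤ C := by
  rw [rn_norm, max_le_iff]
  refine and_congr_left fun _ => ?_
  constructor
  · intro h γ
    exact (le_ciSup (rn_bdd x) γ).trans h
  · intro h
    exact Real.iSup_le h hC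

theorem rn_nonneg (x : Rn 𝕜 Γ n) : 0 ≤ ‖x‖ := by
  rw [rn_norm]
  exact le_max_of_le_right (by positivity)

theorem rn_apply_le (x : Rn 𝕜 Γ n) (γ : Γ) : ‖toL 𝕜 Γ n x γ‖ ≤ ‖x‖ :=
  ((rn_le_iff x (rn_nonneg x)).1 le_rfl).1 γ

theorem rn_two_le (x : Rn 𝕜 Γ n) : (1 / 2) ^ n * ‖toL 𝕜 Γ n x‖ ≤ ‖x‖ :=
  ((rn_le_iff x (rn_nonneg x)).1 le_rfl).2

theorem rn_le_two (x : Rn 𝕜 Γ n) : ‖x‖ ≤ ‖toL 𝕜 Γ n x‖ := by
  rw [rn_le_iff x (norm_nonneg _)]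
  refine ⟨fun γ => apply_le _ γ, ?_⟩
  exact mul_le_of_le_one_left (norm_nonneg _) (pow_le_one₀ (by norm_num) (by norm_num))

theorem rn_core : NormedSpace.Core 𝕜 (Rn 𝕜 Γ n) := by
  have hsm : ∀ (c : 𝕜) (x : Rn 𝕜 Γ n), ‖c • x‖ ≤ ‖c‖ * ‖x‖ := by
    intro c x
    rw [rn_le_iff _ (mul_nonneg (norm_nonneg _) (rn_nonneg _)), map_smul]
    constructor
    · intro γ
      rw [lp.coeFn_smul, Pi.smul_apply, smul_eq_mul, norm_mul]
      exact mul_le_mul_of_nonneg_left (rn_apply_le x γ) (norm_nonneg _)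
    · rw [norm_smul]
      have := mul_le_mul_of_nonneg_left (rn_two_le x) (norm_nonneg c)
      linarith
  refine
    { norm_nonneg := rn_nonneg
      norm_smul := ?_
      norm_triangle := ?_
      norm_eq_zero_iff := ?_ }
  · intro c x
    rcases eq_or_ne c 0 with rfl | hc
    · rw [zero_smul, norm_zero, zero_mul]
      refine le_antisymm ?_ (rn_nonneg _)
      have := hsm 0 x
      rwa [zero_smul, norm_zero, zero_mul] at this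
    · refine le_antisymm (hsm c x) ?_
      have := hsm c⁻¹ (c • x)
      rw [smul_smul, inv_mul_cancel₀ hc, one_smul, norm_inv] at this
      have hc' : 0 < ‖c‖ := norm_pos_iff.2 hc
      calc ‖c‖ * ‖x‖ ≤ ‖c‖ * (‖c‖⁻¹ * ‖c • x‖) := mul_le_mul_of_nonneg_left this hc'.le
        _ = ‖c • x‖ := by field_simp
  · intro x y
    rw [rn_le_iff _ (add_nonneg (rn_nonneg _) (rn_nonneg _)), map_add]
    constructor
    · intro γ
      rw [lp.coeFn_add, Pi.add_apply]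
      exact (norm_add_le _ _).trans (add_le_add (rn_apply_le x γ) (rn_apply_le y γ))
    · refine (mul_le_mul_of_nonneg_left (norm_add_le _ _) (by positivity)).trans ?_
      rw [mul_add]
      exact add_le_add (rn_two_le x) (rn_two_le y)
  · intro x
    constructor
    · intro h0
      have := rn_two_le x
      rw [h0] at this
      have h1 : ‖toL 𝕜 Γ n x‖ ≤ 0 := by
        by_contra hcon
        push Not at hcon
        have : 0 < (1 / 2 : ℝ) ^ n * ‖toL 𝕜 Γ n x‖ := by positivity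
        linarith
      exact (toL 𝕜 Γ n).map_eq_zero_iff.1 (norm_le_zero_iff.1 h1)
    · rintro rfl
      refine le_antisymm ?_ (rn_nonneg _)
      rw [rn_le_iff _ le_rfl, map_zero]
      simp

instance : NormedAddCommGroup (Rn 𝕜 Γ n) := NormedAddCommGroup.ofCore rn_core
instance : NormedSpace 𝕜 (Rn 𝕜 Γ n) := NormedSpace.ofCore rn_core

variable (𝕜 Γ n) in
/-- The identity as a continuous linear equivalence. -/
def toLc : Rn 𝕜 Γ n ≃L[𝕜] L2 𝕜 Γ :=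
  (toL 𝕜 Γ n).toContinuousLinearEquivOfBounds (2 ^ n) 1
    (fun x => by
      have h := rn_two_le x
      have h2 : (2 : ℝ) ^ n * ((1 / 2) ^ n * ‖toL 𝕜 Γ n x‖) = ‖toL 𝕜 Γ n x‖ := by
        rw [← mul_assoc, ← mul_pow]; norm_num
      rw [← h2]
      exact mul_le_mul_of_nonneg_left h (by positivity))
    (fun y => by
      rw [one_mul]
      exact rn_le_two ((toL 𝕜 Γ n).symm y))

theorem toLc_apply (x : Rn 𝕜 Γ n) : toLc 𝕜 Γ n x = toL 𝕜 Γ n x := rfl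

instance : CompleteSpace (Rn 𝕜 Γ n) :=
  (completeSpace_congr (e := (toLc 𝕜 Γ n).toEquiv) (toLc 𝕜 Γ n).isUniformEmbedding).2 inferInstance

variable (𝕜 Γ) in
/-- The space. -/
abbrev Xs := lp (fun n : ℕ => Rn 𝕜 Γ n) 2

/-- Coordinates. -/
def co (x : Xs 𝕜 Γ) (n : ℕ) (γ : Γ) : 𝕜 := toL 𝕜 Γ n (x n) γ

theorem co_add (x y : Xs 𝕜 Γ) (n : ℕ) (γ : Γ) : co (x + y) n γ = co x n γ + co y n γ := rfl

theorem co_smul (c : 𝕜) (x : Xs 𝕜 Γ) (n : ℕ) (γ : Γ) : co (c • x) n γ = c * co x n γ := rfl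

theorem xs_ext {x y : Xs 𝕜 Γ} (h : ∀ n γ, co x n γ = co y n γ) : x = y := by
  apply lp.ext
  funext n
  apply (toL 𝕜 Γ n).injective
  apply lp.ext
  funext γ
  exact h n γ

theorem co_le (x : Xs 𝕜 Γ) (n : ℕ) (γ : Γ) : ‖co x n γ‖ ≤ ‖x n‖ := rn_apply_le _ _

open Classical in
/-- Restriction of an element of the Hilbert space. -/
def cut (A : Set Γ) (x : L2 𝕜 Γ) : L2 𝕜 Γ :=
  ⟨fun γ => if γ ∈ A then x γ else 0, mem_of_le x fun γ => by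
    split_ifs
    · exact le_rfl
    · rw [norm_zero]; exact norm_nonneg _⟩

theorem cut_pos {A : Set Γ} (x : L2 𝕜 Γ) {γ : Γ} (h : γ ∈ A) : cut A x γ = x γ := if_pos h

theorem cut_neg {A : Set Γ} (x : L2 𝕜 Γ) {γ : Γ} (h : γ ∉ A) : cut A x γ = 0 := if_neg h

theorem cut_le (A : Set Γ) (x : L2 𝕜 Γ) (γ : Γ) : ‖cut A x γ‖ ≤ ‖x γ‖ := by
  by_cases h : γ ∈ A
  · rw [cut_pos x h]
  · rw [cut_neg x h, norm_zero]; exact norm_nonneg _

/-- Restriction of an element of a row. -/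
def cutR (A : Set Γ) (x : Rn 𝕜 Γ n) : Rn 𝕜 Γ n :=
  (toL 𝕜 Γ n).symm (cut A (toL 𝕜 Γ n x))

theorem cutR_le (A : Set Γ) (x : Rn 𝕜 Γ n) : ‖cutR A x‖ ≤ ‖x‖ := by
  rw [rn_le_iff _ (norm_nonneg _)]
  refine ⟨fun γ => (cut_le A _ γ).trans (rn_apply_le x γ), ?_⟩
  refine le_trans ?_ (rn_two_le x)
  exact mul_le_mul_of_nonneg_left (norm_le_of_le fun γ => cut_le A _ γ) (by positivity)

/-- The projections as functions. -/
def PXf (A : Set Γ) (x : Xs 𝕜 Γ) : Xs 𝕜 Γ :=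
  ⟨fun n => cutR A (x n), mem_of_le x fun n => cutR_le A (x n)⟩

theorem co_PXf_pos {A : Set Γ} (x : Xs 𝕜 Γ) (n : ℕ) {γ : Γ} (h : γ ∈ A) :
    co (PXf A x) n γ = co x n γ := cut_pos _ h

theorem co_PXf_neg {A : Set Γ} (x : Xs 𝕜 Γ) (n : ℕ) {γ : Γ} (h : γ ∉ A) :
    co (PXf A x) n γ = 0 := cut_neg _ h

variable (𝕜) in
/-- The projections. -/
def PX (A : Set Γ) : Xs 𝕜 Γ →L[𝕜] Xs 𝕜 Γ :=
  LinearMap.mkContinuous
    { toFun := PXf A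
      map_add' := fun x y => xs_ext fun n γ => by
        rw [co_add]
        by_cases h : γ ∈ A
        · rw [co_PXf_pos _ _ h, co_PXf_pos _ _ h, co_PXf_pos _ _ h, co_add]
        · rw [co_PXf_neg _ _ h, co_PXf_neg _ _ h, co_PXf_neg _ _ h, add_zero]
      map_smul' := fun c x => xs_ext fun n γ => by
        rw [RingHom.id_apply, co_smul]
        by_cases h : γ ∈ A
        · rw [co_PXf_pos _ _ h, co_PXf_pos _ _ h, co_smul]
        · rw [co_PXf_neg _ _ h, co_PXf_neg _ _ h, mul_zero] } 1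
    (fun x => by
      rw [one_mul]
      exact norm_le_of_le fun n => cutR_le A (x n))

theorem co_PX_pos {A : Set Γ} (x : Xs 𝕜 Γ) (n : ℕ) {γ : Γ} (h : γ ∈ A) :
    co (PX 𝕜 A x) n γ = co x n γ := cut_pos _ h

theorem co_PX_neg {A : Set Γ} (x : Xs 𝕜 Γ) (n : ℕ) {γ : Γ} (h : γ ∉ A) :
    co (PX 𝕜 A x) n γ = 0 := cut_neg _ h

theorem PX_le (A : Set Γ) (x : Xs 𝕜 Γ) : ‖PX 𝕜 A x‖ ≤ ‖x‖ :=
  norm_le_of_le fun n => cutR_le A (x n)

/-- The upper 2-estimate for the rows. -/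
theorem rn_upper {x y z : Rn 𝕜 Γ n}
    (h : ∀ γ, (toL 𝕜 Γ n z γ = toL 𝕜 Γ n x γ ∧ toL 𝕜 Γ n y γ = 0) ∨
      (toL 𝕜 Γ n z γ = toL 𝕜 Γ n y γ ∧ toL 𝕜 Γ n x γ = 0)) :
    ‖z‖ ^ 2 ≤ ‖x‖ ^ 2 + ‖y‖ ^ 2 := by
  have h0 : 0 ≤ ‖x‖ ^ 2 + ‖y‖ ^ 2 := by positivity
  have h1 : ‖z‖ ≤ √(‖x‖ ^ 2 + ‖y‖ ^ 2) := by
    rw [rn_le_iff _ (Real.sqrt_nonneg _)]
    constructor
    · intro γ
      refine Real.le_sqrt_of_sq_le ?_
      rcases h γ with ⟨h1, -⟩ | ⟨h1, -⟩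
      · rw [h1]
        have := pow_le_pow_left₀ (norm_nonneg _) (rn_apply_le x γ) 2
        nlinarith [sq_nonneg ‖y‖]
      · rw [h1]
        have := pow_le_pow_left₀ (norm_nonneg _) (rn_apply_le y γ) 2
        nlinarith [sq_nonneg ‖x‖]
    · refine Real.le_sqrt_of_sq_le ?_
      have h2 : ‖toL 𝕜 Γ n z‖ ^ 2 ≤ ‖toL 𝕜 Γ n x‖ ^ 2 + ‖toL 𝕜 Γ n y‖ ^ 2 := by
        refine norm_add_sq_le fun γ => ?_
        rcases h γ with ⟨h1, h2⟩ | ⟨h1, h2⟩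
        · rw [h1, h2]; simp
        · rw [h1, h2]; simp
      have hx := pow_le_pow_left₀ (by positivity) (rn_two_le x) 2
      have hy := pow_le_pow_left₀ (by positivity) (rn_two_le y) 2
      rw [mul_pow] at hx hy ⊢
      have h3 : 0 ≤ ((1 / 2 : ℝ) ^ n) ^ 2 := by positivity
      nlinarith
  have h2 := pow_le_pow_left₀ (norm_nonneg _) h1 2
  rwa [Real.sq_sqrt h0] at h2

theorem PX_upper (A : Set Γ) (x y : Xs 𝕜 Γ) :
    ‖PX 𝕜 A x + PX 𝕜 Aᶜ y‖ ^ 2 ≤ ‖PX 𝕜 A x‖ ^ 2 + ‖PX 𝕜 Aᶜ y‖ ^ 2 := by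
  refine norm_add_sq_le fun n => rn_upper fun γ => ?_
  by_cases h : γ ∈ A
  · left
    have h1 : co (PX 𝕜 Aᶜ y) n γ = 0 := co_PX_neg y n (fun h' => h' h)
    refine ⟨?_, h1⟩
    show co (PX 𝕜 A x + PX 𝕜 Aᶜ y) n γ = co (PX 𝕜 A x) n γ
    rw [co_add, h1, add_zero]
  · right
    have h1 : co (PX 𝕜 A x) n γ = 0 := co_PX_neg x n h
    refine ⟨?_, h1⟩
    show co (PX 𝕜 A x + PX 𝕜 Aᶜ y) n γ = co (PX 𝕜 Aᶜ y) n γ
    rw [co_add, h1, zero_add]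

variable [DecidableEq Γ]

/-- The unit vectors. -/
def ev (n : ℕ) (γ : Γ) : Xs 𝕜 Γ :=
  lp.single 2 n ((toL 𝕜 Γ n).symm (lp.single 2 γ (1 : 𝕜)))

theorem co_ev (n : ℕ) (γ : Γ) (m : ℕ) (β : Γ) :
    co (ev n γ : Xs 𝕜 Γ) m β = if m = n ∧ β = γ then 1 else 0 := by
  unfold co ev
  rw [lp.single_apply]
  by_cases h : m = n
  · subst h
    rw [Pi.single_eq_same, LinearEquiv.apply_symm_apply, lp.single_apply]
    by_cases h2 : β = γ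
    · subst h2; rw [Pi.single_eq_same, if_pos ⟨rfl, rfl⟩]
    · rw [Pi.single_eq_of_ne h2, if_neg fun h => h2 h.2]
  · rw [Pi.single_eq_of_ne h, map_zero, if_neg fun h' => h h'.1]
    rfl

/-- The unit vectors span a dense subspace. -/
theorem dense_span (x : Xs 𝕜 Γ) :
    x ∈ (Submodule.span 𝕜 (Set.range fun p : ℕ × Γ => (ev p.1 p.2 : Xs 𝕜 Γ))).topologicalClosure := by
  set M := (Submodule.span 𝕜 (Set.range fun p : ℕ × Γ => (ev p.1 p.2 : Xs 𝕜 Γ))).topologicalClosure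
    with hM
  have hMc : IsClosed (M : Set (Xs 𝕜 Γ)) := Submodule.isClosed_topologicalClosure _
  have hev : ∀ n γ, (ev n γ : Xs 𝕜 Γ) ∈ M := fun n γ =>
    Submodule.le_topologicalClosure _ (Submodule.subset_span ⟨(n, γ), rfl⟩)
  -- single rows
  have hrow : ∀ (n : ℕ) (y : L2 𝕜 Γ),
      (lp.single 2 n ((toL 𝕜 Γ n).symm y) : Xs 𝕜 Γ) ∈ M := by
    intro n y
    let J : L2 𝕜 Γ →L[𝕜] Xs 𝕜 Γ :=
      (lp.singleContinuousLinearMap 𝕜 (fun n => Rn 𝕜 Γ n) 2 n).comp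
        ((toLc 𝕜 Γ n).symm : L2 𝕜 Γ →L[𝕜] Rn 𝕜 Γ n)
    have hJ : ∀ y, J y = lp.single 2 n ((toL 𝕜 Γ n).symm y) := fun y => rfl
    rw [← hJ]
    have hlim := (J.continuous.tendsto y).comp (tendsto_sum_single y)
    refine hMc.mem_of_tendsto hlim (Eventually.of_forall fun s => ?_)
    show J (∑ i ∈ s, lp.single 2 i (y i)) ∈ M
    rw [map_sum]
    refine M.sum_mem fun γ _ => ?_
    have h1 : (lp.single 2 γ (y γ) : L2 𝕜 Γ) = y γ • lp.single 2 γ (1 : 𝕜) := by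
      ext β
      rw [lp.coeFn_smul, Pi.smul_apply, lp.single_apply, lp.single_apply]
      by_cases h : β = γ
      · subst h; simp
      · rw [Pi.single_eq_of_ne h, Pi.single_eq_of_ne h, smul_zero]
    rw [h1, map_smul, hJ]
    exact M.smul_mem _ (hev n γ)
  refine hMc.mem_of_tendsto (tendsto_sum_single x) (Eventually.of_forall fun s => ?_)
  refine M.sum_mem fun n _ => ?_
  have := hrow n (toL 𝕜 Γ n (x n))
  rwa [LinearEquiv.symm_apply_apply] at this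

theorem PX_ev_pos {A : Set Γ} {n : ℕ} {γ : Γ} (h : γ ∈ A) :
    PX 𝕜 A (ev n γ) = (ev n γ : Xs 𝕜 Γ) := by
  refine xs_ext fun m β => ?_
  by_cases hβ : β ∈ A
  · rw [co_PX_pos _ _ hβ]
  · rw [co_PX_neg _ _ hβ, co_ev, if_neg]
    rintro ⟨-, rfl⟩
    exact hβ h

theorem PX_ev_neg {A : Set Γ} {n : ℕ} {γ : Γ} (h : γ ∉ A) :
    PX 𝕜 A (ev n γ) = (0 : Xs 𝕜 Γ) := by
  refine xs_ext fun m β => ?_
  have h0 : co (0 : Xs 𝕜 Γ) m β = 0 := rfl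
  rw [h0]
  by_cases hβ : β ∈ A
  · rw [co_PX_pos _ _ hβ, co_ev, if_neg]
    rintro ⟨-, rfl⟩
    exact h hβ
  · rw [co_PX_neg _ _ hβ]

theorem PX_comp (A B : Set Γ) (x : Xs 𝕜 Γ) : PX 𝕜 A (PX 𝕜 B x) = PX 𝕜 (A ∩ B) x := by
  refine xs_ext fun n γ => ?_
  by_cases hA : γ ∈ A
  · rw [co_PX_pos _ _ hA]
    by_cases hB : γ ∈ B
    · rw [co_PX_pos _ _ hB, co_PX_pos _ _ (show γ ∈ A ∩ B from ⟨hA, hB⟩)]
    · rw [co_PX_neg _ _ hB, co_PX_neg _ _ (show γ ∉ A ∩ B from fun h => hB h.2)]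
  · rw [co_PX_neg _ _ hA, co_PX_neg _ _ (show γ ∉ A ∩ B from fun h => hA h.1)]

theorem PX_add (A : Set Γ) (x : Xs 𝕜 Γ) : PX 𝕜 A x + PX 𝕜 Aᶜ x = x := by
  refine xs_ext fun n γ => ?_
  rw [co_add]
  by_cases hA : γ ∈ A
  · rw [co_PX_pos _ _ hA, co_PX_neg _ _ (show γ ∉ Aᶜ from fun h => h hA), add_zero]
  · rw [co_PX_neg _ _ hA, co_PX_pos _ _ (show γ ∈ Aᶜ from hA), zero_add]

theorem PX_fin (x : Xs 𝕜 Γ) {ε : ℝ} (hε : 0 < ε) :
    ∃ F : Finset Γ, ‖x - PX 𝕜 (F : Set Γ) x‖ < ε := by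
  have hx := dense_span x
  rw [← SetLike.mem_coe, Submodule.topologicalClosure_coe, Metric.mem_closure_iff] at hx
  obtain ⟨y, hy, hxy⟩ := hx ε hε
  have hfin : ∃ F : Finset Γ, PX 𝕜 (F : Set Γ)ᶜ y = 0 := by
    refine Submodule.span_induction ?_ ?_ ?_ ?_ hy
    · rintro _ ⟨⟨n, γ⟩, rfl⟩
      exact ⟨{γ}, PX_ev_neg (by simp)⟩
    · exact ⟨∅, map_zero _⟩
    · rintro y z - - ⟨F, hF⟩ ⟨G, hG⟩
      refine ⟨F ∪ G, ?_⟩
      have e1 : PX 𝕜 ((F ∪ G : Finset Γ) : Set Γ)ᶜ y = 0 := by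
        have : ((F ∪ G : Finset Γ) : Set Γ)ᶜ = (G : Set Γ)ᶜ ∩ (F : Set Γ)ᶜ := by
          rw [Finset.coe_union, Set.compl_union, Set.inter_comm]
        rw [this, ← PX_comp, hF, map_zero]
      have e2 : PX 𝕜 ((F ∪ G : Finset Γ) : Set Γ)ᶜ z = 0 := by
        rw [Finset.coe_union, Set.compl_union, ← PX_comp, hG, map_zero]
      rw [map_add, e1, e2, add_zero]
    · rintro c y - ⟨F, hF⟩
      exact ⟨F, by rw [map_smul, hF, smul_zero]⟩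
  obtain ⟨F, hF⟩ := hfin
  refine ⟨F, ?_⟩
  have h1 : x - PX 𝕜 (F : Set Γ) x = PX 𝕜 (F : Set Γ)ᶜ (x - y) := by
    rw [map_sub, hF, sub_zero]
    nth_rewrite 1 [← PX_add (F : Set Γ) x]
    abel
  rw [h1]
  refine (PX_le _ _).trans_lt ?_
  rwa [← dist_eq_norm]

theorem PX_sep (A : Set Γ) (hA : A.Countable) : IsSeparable (Set.range (PX 𝕜 A)) := by
  have hc : (Set.range fun p : ℕ × A => (ev p.1 p.2.1 : Xs 𝕜 Γ)).Countable := by
    have : Countable A := hA.to_subtype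
    exact Set.countable_range _
  have hsp : IsSeparable ((Submodule.span 𝕜
      (Set.range fun p : ℕ × A => (ev p.1 p.2.1 : Xs 𝕜 Γ)) : Submodule 𝕜 (Xs 𝕜 Γ)) :
        Set (Xs 𝕜 Γ)) := hc.isSeparable.span
  refine hsp.closure.mono ?_
  rintro _ ⟨x, rfl⟩
  have hx := dense_span x
  rw [← SetLike.mem_coe, Submodule.topologicalClosure_coe] at hx
  refine map_mem_closure (PX 𝕜 A).continuous hx ?_
  intro y hy
  refine Submodule.span_induction ?_ ?_ ?_ ?_ hy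
  · rintro _ ⟨⟨n, γ⟩, rfl⟩
    dsimp only
    by_cases h : γ ∈ A
    · rw [PX_ev_pos h]
      exact Submodule.subset_span ⟨(n, ⟨γ, h⟩), rfl⟩
    · rw [PX_ev_neg h]
      exact Submodule.zero_mem _
  · rw [map_zero]; exact Submodule.zero_mem _
  · intro y z _ _ hy hz
    rw [map_add]; exact Submodule.add_mem _ hy hz
  · intro c y _ hy
    rw [map_smul]; exact Submodule.smul_mem _ c hy

variable (𝕜 Γ) in
/-- The system of projections. -/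
def sys : PSys 𝕜 (Xs 𝕜 Γ) Γ where
  P := PX 𝕜
  comp := PX_comp
  add := PX_add
  contr := PX_le
  upper := PX_upper
  fin := fun x _ hε => PX_fin x hε
  sep := PX_sep

end

end Pool.Agent.Q178.KP
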