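import Pool.Agent.Q178.KP.D

/-!
# The closed subspace which is no kernel
-/

set_option autoImplicit false

open Filter Topology TopologicalSpace
open scoped ComplexConjugate

namespace Pool.Agent.Q178.KP

/-- Signs making the sum large. -/
theorem exists_signs (𝕜 : Type) [RCLike 𝕜] {H : Type} [NormedAddCommGroup H]
    [InnerProductSpace 𝕜 H] (u : ℕ → H) (N : ℕ) :
    ∃ c : ℕ → 𝕜, (∀ k, ‖c k‖ ≤ 1) ∧
      ∑ k ∈ Finset.range N, ‖u k‖ ^ 2 ≤ ‖∑ k ∈ Finset.range N, c k • u k‖ ^ 2 := by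
  induction N with
  | zero => exact ⟨fun _ => 1, fun _ => by simp, by simp⟩
  | succ N ih =>
    obtain ⟨c, hc, hN⟩ := ih
    set s := ∑ k ∈ Finset.range N, c k • u k with hs
    have hpar := parallelogram_law_with_norm 𝕜 s (u N)
    have hupd : ∀ z : 𝕜, ∑ k ∈ Finset.range (N + 1), Function.update c N z k • u k =
        s + z • u N := by
      intro z
      rw [Finset.sum_range_succ, Function.update_self, hs]
      congr 1
      refine Finset.sum_congr rfl fun k hk => ?_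
      rw [Function.update_of_ne (ne_of_lt (Finset.mem_range.1 hk))]
    have hb : ∀ z : 𝕜, ‖z‖ ≤ 1 → ∀ k, ‖Function.update c N z k‖ ≤ 1 := by
      intro z hz k
      rcases eq_or_ne k N with rfl | h
      · rw [Function.update_self]; exact hz
      · rw [Function.update_of_ne h]; exact hc k
    by_cases h : ‖s‖ ^ 2 + ‖u N‖ ^ 2 ≤ ‖s + u N‖ ^ 2
    · refine ⟨Function.update c N 1, hb 1 (by simp), ?_⟩
      rw [hupd, one_smul, Finset.sum_range_succ]
      linarith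
    · refine ⟨Function.update c N (-1), hb (-1) (by simp), ?_⟩
      rw [hupd, neg_one_smul, ← sub_eq_add_neg, Finset.sum_range_succ]
      nlinarith

noncomputable section

variable {𝕜 : Type} [RCLike 𝕜] {Γ : Type}

variable (𝕜) in
/-- The sequence `1 / (n + 1)`. -/
def wt : lp (fun _ : ℕ => 𝕜) 2 :=
  ⟨fun n => ((1 / ((n : ℝ) + 1) : ℝ) : 𝕜), mem_of_summable (by
    have h := (summable_nat_add_iff 1).2 (Real.summable_one_div_nat_pow.2 one_lt_two)
    refine h.congr fun n => ?_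
    rw [RCLike.norm_ofReal, sq_abs, div_pow, one_pow]
    push_cast
    rfl)⟩

theorem wt_apply (n : ℕ) : wt 𝕜 n = ((1 / ((n : ℝ) + 1) : ℝ) : 𝕜) := rfl

/-- A column. -/
def colm (γ : Γ) : Xs 𝕜 Γ →L[𝕜] lp (fun _ : ℕ => 𝕜) 2 :=
  LinearMap.mkContinuous
    { toFun := fun x => ⟨fun n => co x n γ, mem_of_summable
        (Summable.of_nonneg_of_le (fun _ => by positivity)
          (fun n => pow_le_pow_left₀ (norm_nonneg _) (co_le x n γ) 2) (summable_sq x))⟩
      map_add' := fun x y => by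
        apply lp.ext
        rfl
      map_smul' := fun c x => by
        apply lp.ext
        rfl } 1
    (fun x => by
      rw [one_mul]
      refine norm_le_of_sum (norm_nonneg _) fun s => ?_
      exact (Finset.sum_le_sum fun n _ => pow_le_pow_left₀ (norm_nonneg _) (co_le x n γ) 2).trans
        (sum_le_norm_sq x s))

theorem colm_apply (γ : Γ) (x : Xs 𝕜 Γ) (n : ℕ) : colm γ x n = co x n γ := rfl

/-- The functionals defining the subspace. -/
def psi (γ : Γ) : Xs 𝕜 Γ →L[𝕜] 𝕜 := (innerSL 𝕜 (wt 𝕜)).comp (colm γ)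

variable [DecidableEq Γ]

theorem psi_ev (γ : Γ) (n : ℕ) (β : Γ) :
    psi γ (ev n β : Xs 𝕜 Γ) = if γ = β then ((1 / ((n : ℝ) + 1) : ℝ) : 𝕜) else 0 := by
  have h1 : colm γ (ev n β : Xs 𝕜 Γ) = lp.single 2 n (if γ = β then (1 : 𝕜) else 0) := by
    apply lp.ext
    funext m
    rw [colm_apply, co_ev, lp.single_apply]
    by_cases hm : m = n
    · subst hm
      rw [Pi.single_eq_same]
      by_cases h : γ = β
      · rw [if_pos h, if_pos ⟨rfl, h⟩]
      · rw [if_neg h, if_neg fun h' => h h'.2]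
    · rw [Pi.single_eq_of_ne hm, if_neg fun h' => hm h'.1]
  show inner 𝕜 (wt 𝕜) (colm γ (ev n β : Xs 𝕜 Γ)) = _
  rw [h1, lp.inner_single_right, wt_apply]
  by_cases h : γ = β
  · rw [if_pos h, if_pos h]
    simp
  · rw [if_neg h, if_neg h, inner_zero_right]

variable (𝕜 Γ) in
/-- The subspace. -/
def Yb : Submodule 𝕜 (Xs 𝕜 Γ) := ⨅ γ, LinearMap.ker (psi γ : Xs 𝕜 Γ →L[𝕜] 𝕜).toLinearMap

omit [DecidableEq Γ] in
theorem mem_Yb (x : Xs 𝕜 Γ) : x ∈ Yb 𝕜 Γ ↔ ∀ γ, psi γ x = 0 := by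
  rw [Yb, Submodule.mem_iInf]
  rfl

omit [DecidableEq Γ] in
theorem isClosed_Yb : IsClosed (Yb 𝕜 Γ : Set (Xs 𝕜 Γ)) := by
  have : (Yb 𝕜 Γ : Set (Xs 𝕜 Γ)) = ⋂ γ, {x | psi γ x = 0} := by
    ext x
    rw [SetLike.mem_coe, mem_Yb, Set.mem_iInter]
    rfl
  rw [this]
  exact isClosed_iInter fun γ => isClosed_eq (psi γ).continuous continuous_const

/-- Norm of a signed sum in a row. -/
theorem norm_row (n N : ℕ) (hN : N ≤ 4 ^ n) (g : ℕ → Γ) (hg : Function.Injective g)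
    (c : ℕ → 𝕜) (hc : ∀ k, ‖c k‖ ≤ 1) :
    ‖∑ k ∈ Finset.range N, c k • (ev n (g k) : Xs 𝕜 Γ)‖ ≤ 1 := by
  have h1 : ∑ k ∈ Finset.range N, c k • (ev n (g k) : Xs 𝕜 Γ) =
      lp.single 2 n ((toL 𝕜 Γ n).symm (∑ k ∈ Finset.range N, c k • lp.single 2 (g k) (1 : 𝕜))) := by
    have h2 : ∀ y : L2 𝕜 Γ, (lp.single 2 n ((toL 𝕜 Γ n).symm y) : Xs 𝕜 Γ) =
        ((lp.singleContinuousLinearMap 𝕜 (fun n => Rn 𝕜 Γ n) 2 n).comp
        ((toLc 𝕜 Γ n).symm : L2 𝕜 Γ →L[𝕜] Rn 𝕜 Γ n)) y := fun _ => rfl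
    rw [h2, map_sum]
    refine Finset.sum_congr rfl fun k _ => ?_
    rw [map_smul]
    rfl
  rw [h1, lp.norm_single (by norm_num), rn_le_iff _ zero_le_one, LinearEquiv.apply_symm_apply]
  have hco : ∀ β : Γ, (∑ k ∈ Finset.range N, c k • lp.single 2 (g k) (1 : 𝕜) : L2 𝕜 Γ) β =
      ∑ k ∈ Finset.range N, c k * (if β = g k then 1 else 0) := by
    intro β
    rw [lp.coeFn_sum, Finset.sum_apply]
    refine Finset.sum_congr rfl fun k _ => ?_
    rw [lp.coeFn_smul, Pi.smul_apply, smul_eq_mul, lp.single_apply]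
    congr 1
    by_cases h : β = g k
    · subst h; rw [Pi.single_eq_same, if_pos rfl]
    · rw [Pi.single_eq_of_ne h, if_neg h]
  have hco2 : ∀ β : Γ, ‖(∑ k ∈ Finset.range N, c k • lp.single 2 (g k) (1 : 𝕜) : L2 𝕜 Γ) β‖ ≤
      if β ∈ (Finset.range N).image g then 1 else 0 := by
    intro β
    rw [hco]
    split_ifs with h
    · obtain ⟨k, hk, rfl⟩ := Finset.mem_image.1 h
      rw [Finset.sum_eq_single_of_mem k hk, if_pos rfl, mul_one]
      · exact hc k
      · intro j _ hj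
        rw [if_neg fun h => hj (hg h).symm, mul_zero]
    · rw [Finset.sum_eq_zero, norm_zero]
      intro k hk
      rw [if_neg, mul_zero]
      rintro rfl
      exact h (Finset.mem_image_of_mem g hk)
  refine ⟨fun β => (hco2 β).trans (by split_ifs <;> norm_num), ?_⟩
  have h3 : ‖(∑ k ∈ Finset.range N, c k • lp.single 2 (g k) (1 : 𝕜) : L2 𝕜 Γ)‖ ≤ 2 ^ n := by
    refine norm_le_of_sum (by positivity) fun s => ?_
    calc ∑ β ∈ s, ‖(∑ k ∈ Finset.range N, c k • lp.single 2 (g k) (1 : 𝕜) : L2 𝕜 Γ) β‖ ^ 2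
        ≤ ∑ β ∈ s, (if β ∈ (Finset.range N).image g then (1 : ℝ) else 0) := by
          refine Finset.sum_le_sum fun β _ => ?_
          have := pow_le_pow_left₀ (norm_nonneg _) (hco2 β) 2
          refine this.trans ?_
          split_ifs <;> norm_num
      _ = ((s.filter fun β => β ∈ (Finset.range N).image g).card : ℝ) := by
          rw [Finset.sum_ite, Finset.sum_const_zero, add_zero, Finset.sum_const, nsmul_eq_mul,
            mul_one]
      _ ≤ (N : ℝ) := by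
          have h4 : (s.filter fun β => β ∈ (Finset.range N).image g).card ≤ N := by
            refine (Finset.card_le_card (t := (Finset.range N).image g) ?_).trans
              (Finset.card_image_le.trans (Finset.card_range N).le)
            intro β hβ
            exact (Finset.mem_filter.1 hβ).2
          exact_mod_cast h4
      _ ≤ ((4 ^ n : ℕ) : ℝ) := by exact_mod_cast hN
      _ = (2 ^ n : ℝ) ^ 2 := by push_cast; rw [← pow_mul, mul_comm, pow_mul]; norm_num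
  calc (1 / 2 : ℝ) ^ n * _ ≤ (1 / 2 : ℝ) ^ n * 2 ^ n := mul_le_mul_of_nonneg_left h3 (by positivity)
    _ = 1 := by rw [← mul_pow]; norm_num

/-- The subspace is not the kernel of an operator if the index set is uncountable. -/
theorem not_kernel (hΓ : ¬ Countable Γ) (T : Xs 𝕜 Γ →L[𝕜] Xs 𝕜 Γ)
    (hT : ∀ x, T x = 0 ↔ x ∈ Yb 𝕜 Γ) : False := by
  let f : Γ → Xs 𝕜 Γ := fun γ => T (ev 0 γ)
  have hf0 : ∀ γ, f γ ≠ 0 := by
    intro γ h
    have h1 := (mem_Yb _).1 ((hT _).1 h) γ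
    rw [psi_ev, if_pos rfl] at h1
    norm_num at h1
  have hfn : ∀ (n : ℕ) γ, ((n : 𝕜) + 1) • T (ev n γ) = f γ := by
    intro n γ
    have h1 : T (((n : 𝕜) + 1) • ev n γ - ev 0 γ) = 0 := by
      rw [hT, mem_Yb]
      intro β
      rw [map_sub, map_smul, psi_ev, psi_ev, smul_eq_mul]
      by_cases h : β = γ
      · rw [if_pos h, if_pos h]
        have : ((n : 𝕜) + 1) ≠ 0 := by
          have h2 := Nat.cast_ne_zero (R := 𝕜).2 (Nat.succ_ne_zero n)
          rwa [Nat.cast_succ] at h2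
        push_cast
        field_simp
        simp
      · rw [if_neg h, if_neg h]; simp
    rw [map_sub, map_smul, sub_eq_zero] at h1
    exact h1
  have hfin : ∀ (m j : ℕ), {γ | 1 / ((j : ℝ) + 1) ≤ ‖toLc 𝕜 Γ m (f γ m)‖}.Finite := by
    intro m j
    by_contra hinf
    have hinf' : {γ | 1 / ((j : ℝ) + 1) ≤ ‖toLc 𝕜 Γ m (f γ m)‖}.Infinite := hinf
    let g : ℕ → Γ := fun k => (hinf'.natEmbedding _ k).1
    have hg : Function.Injective g := fun a b h =>
      (hinf'.natEmbedding _).injective (Subtype.ext h)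
    have hgm : ∀ k, 1 / ((j : ℝ) + 1) ≤ ‖toLc 𝕜 Γ m (f (g k) m)‖ := fun k =>
      (hinf'.natEmbedding _ k).2
    let L : Xs 𝕜 Γ →L[𝕜] L2 𝕜 Γ := ((toLc 𝕜 Γ m : Rn 𝕜 Γ m →L[𝕜] L2 𝕜 Γ).comp
      (lp.evalCLM 𝕜 (fun n => Rn 𝕜 Γ n) 2 m)).comp T
    have hL : ∀ x, L x = toLc 𝕜 Γ m (T x m) := fun _ => rfl
    have key : ∀ n : ℕ, (4 : ℝ) ^ n * (1 / ((j : ℝ) + 1)) ^ 2 ≤ (‖L‖ * ((n : ℝ) + 1)) ^ 2 := by
      intro n
      obtain ⟨c, hc, hcN⟩ := exists_signs 𝕜 (fun k => toLc 𝕜 Γ m (f (g k) m)) (4 ^ n)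
      have h1 : ∑ k ∈ Finset.range (4 ^ n), c k • toLc 𝕜 Γ m (f (g k) m) =
          L (((n : 𝕜) + 1) • ∑ k ∈ Finset.range (4 ^ n), c k • (ev n (g k) : Xs 𝕜 Γ)) := by
        rw [map_smul, map_sum, Finset.smul_sum]
        refine Finset.sum_congr rfl fun k _ => ?_
        rw [← hfn n (g k), map_smul, smul_comm, hL]
        rfl
      have h2 : ‖L (((n : 𝕜) + 1) • ∑ k ∈ Finset.range (4 ^ n), c k • (ev n (g k) : Xs 𝕜 Γ))‖ ≤
          ‖L‖ * ((n : ℝ) + 1) := by
        refine (L.le_opNorm _).trans (mul_le_mul_of_nonneg_left ?_ (norm_nonneg _))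
        rw [norm_smul]
        have hn : ‖(n : 𝕜) + 1‖ = (n : ℝ) + 1 := by
          have : ((n : 𝕜) + 1) = ((n + 1 : ℕ) : 𝕜) := by push_cast; ring
          rw [this, RCLike.norm_natCast]
          push_cast; ring
        rw [hn]
        exact mul_le_of_le_one_right (by positivity) (norm_row n (4 ^ n) le_rfl g hg c hc)
      calc (4 : ℝ) ^ n * (1 / ((j : ℝ) + 1)) ^ 2
          = ∑ k ∈ Finset.range (4 ^ n), (1 / ((j : ℝ) + 1)) ^ 2 := by
            rw [Finset.sum_const, Finset.card_range, nsmul_eq_mul]; push_cast; ring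
        _ ≤ ∑ k ∈ Finset.range (4 ^ n), ‖toLc 𝕜 Γ m (f (g k) m)‖ ^ 2 :=
            Finset.sum_le_sum fun k _ => pow_le_pow_left₀ (by positivity) (hgm k) 2
        _ ≤ _ := hcN
        _ ≤ _ := by
            rw [h1]
            exact pow_le_pow_left₀ (norm_nonneg _) h2 2
    -- growth contradiction
    have hgrow : Tendsto (fun n : ℕ => ((n : ℝ) + 1) ^ 2 * ‖L‖ ^ 2 / (4 : ℝ) ^ n) atTop (𝓝 0) := by
      have h1 : Tendsto (fun n : ℕ => (((n + 1 : ℕ) : ℝ)) ^ 2 / (4 : ℝ) ^ (n + 1)) atTop (𝓝 0) :=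
        (tendsto_add_atTop_iff_nat 1).2 (tendsto_pow_const_div_const_pow_of_one_lt 2 (by norm_num))
      have h2 := h1.mul_const (4 * ‖L‖ ^ 2)
      rw [zero_mul] at h2
      refine h2.congr fun n => ?_
      push_cast
      rw [pow_succ (4 : ℝ) n]
      field_simp
    have hlim : (1 / ((j : ℝ) + 1)) ^ 2 ≤ 0 := by
      refine ge_of_tendsto' hgrow fun n => ?_
      rw [le_div_iff₀ (by positivity)]
      have := key n
      nlinarith
    have : 0 < (1 / ((j : ℝ) + 1)) ^ 2 := by positivity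
    linarith
  apply hΓ
  rw [← Set.countable_univ_iff]
  have hun : (Set.univ : Set Γ) ⊆ ⋃ m : ℕ, ⋃ j : ℕ,
      {γ | 1 / ((j : ℝ) + 1) ≤ ‖toLc 𝕜 Γ m (f γ m)‖} := by
    intro γ _
    have h1 : ∃ m, f γ m ≠ 0 := by
      by_contra hcon
      push Not at hcon
      exact hf0 γ (lp.ext (funext hcon))
    obtain ⟨m, hm⟩ := h1
    have h2 : 0 < ‖toLc 𝕜 Γ m (f γ m)‖ := by
      rw [norm_pos_iff]
      intro h
      exact hm ((toLc 𝕜 Γ m).map_eq_zero_iff.1 h)
    obtain ⟨j, hj⟩ := exists_nat_one_div_lt h2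
    exact Set.mem_iUnion₂.2 ⟨m, j, hj.le⟩
  exact (Set.countable_iUnion fun m => Set.countable_iUnion fun j => (hfin m j).countable).mono hun

end

end Pool.Agent.Q178.KP
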