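import Pool.Agent.Q178.KP.E
import Pool.Agent.Q178.KP.F

/-!
# The dual answers the kernel problem positively
-/

set_option autoImplicit false

open Filter Topology TopologicalSpace Cardinal
open scoped ComplexConjugate

namespace Pool.Agent.Q178.KP

noncomputable section

/-- An uncountable well-ordered type all of whose initial segments are countable. -/
def Om : Type := (Cardinal.ord ℵ₁).ToType

instance : LinearOrder Om := inferInstanceAs (LinearOrder (Cardinal.ord ℵ₁).ToType)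
instance : WellFoundedLT Om := inferInstanceAs (WellFoundedLT (Cardinal.ord ℵ₁).ToType)

theorem om_uncountable : ¬ Countable Om := by
  intro h
  have h1 : #Om ≤ ℵ₀ := Cardinal.mk_le_aleph0_iff.2 h
  have h2 : #Om = ℵ₁ := Cardinal.mk_ord_toType _
  rw [h2] at h1
  exact absurd (Cardinal.aleph0_lt_aleph_one) (not_lt.2 h1)

theorem om_Iic (i : Om) : (Set.Iic i).Countable := by
  have h1 : (Set.Iio i).Countable := by
    rw [Cardinal.countable_iff_lt_aleph_one]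
    exact Cardinal.mk_Iio_toType_ord_lt i
  rw [← Set.Iio_union_right]
  exact h1.union (Set.countable_singleton i)

/-- Separation of a point from a closed subspace. -/
theorem exists_separating {𝕜 : Type} [RCLike 𝕜] {E : Type} [NormedAddCommGroup E]
    [NormedSpace 𝕜 E] (Y : Submodule 𝕜 E) (hY : IsClosed (Y : Set E)) {f : E} (hf : f ∉ Y) :
    ∃ F : StrongDual 𝕜 E, F f ≠ 0 ∧ ∀ g ∈ Y, F g = 0 := by
  let : NormedSpace ℝ E := NormedSpace.restrictScalars ℝ 𝕜 E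
  obtain ⟨F, u, hF, hu⟩ := RCLike.geometric_hahn_banach_closed_point (𝕜 := 𝕜) (E := E)
    (s := (Y : Set E)) (x := f) (Y.restrictScalars ℝ).convex hY hf
  have hF0 : ∀ a ∈ Y, F a = 0 := by
    intro a ha
    by_contra hfa
    have hpos : 0 < ‖F a‖ ^ 2 := by positivity
    set s : ℝ := (|u| + 1) / ‖F a‖ ^ 2 with hs
    have h1 := hF (((s : 𝕜) * conj (F a)) • a) (Y.smul_mem _ ha)
    have h2 : s * ‖F a‖ ^ 2 = |u| + 1 := by rw [hs]; field_simp
    rw [map_smul, smul_eq_mul, mul_assoc, RCLike.conj_mul, ← RCLike.ofReal_pow,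
      ← RCLike.ofReal_mul, RCLike.ofReal_re, h2] at h1
    linarith [le_abs_self u]
  refine ⟨F, ?_, hF0⟩
  intro h0
  have hu0 := hF 0 Y.zero_mem
  rw [map_zero, map_zero] at hu0
  rw [h0, map_zero] at hu
  linarith

/-- Closed subspaces of the dual of a reflexive space are annihilators. -/
theorem refl_annih {𝕜 : Type} [RCLike 𝕜] {E : Type} [NormedAddCommGroup E] [NormedSpace 𝕜 E]
    (hE : Refl 𝕜 E) (Y : Submodule 𝕜 (StrongDual 𝕜 E)) (hY : IsClosed (Y : Set (StrongDual 𝕜 E)))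
    {f : StrongDual 𝕜 E} (hf : ∀ x : E, (∀ g ∈ Y, g x = 0) → f x = 0) : f ∈ Y := by
  by_contra hcon
  obtain ⟨F, hF1, hF2⟩ := exists_separating Y hY hcon
  obtain ⟨x, hx⟩ := hE F
  have h1 : ∀ g, F g = g x := fun g => by rw [← hx]; rfl
  exact hF1 (by rw [h1]; exact hf x fun g hg => by rw [← h1]; exact hF2 g hg)

variable {𝕜 Γ : Type} [RCLike 𝕜]

/-- The map onto the first row, read along an injection. -/
def Rmap (ι : Γ × ℕ → Γ) (hι : Function.Injective ι) :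
    Xs 𝕜 Γ →L[𝕜] lp (fun _ : Γ × ℕ => 𝕜) 2 :=
  LinearMap.mkContinuous
    { toFun := fun x => ⟨fun j => co x 0 (ι j), mem_of_summable
        ((summable_sq (toL 𝕜 Γ 0 (x 0))).comp_injective hι)⟩
      map_add' := fun x y => by
        apply lp.ext
        rfl
      map_smul' := fun c x => by
        apply lp.ext
        rfl } 1
    (fun x => by
      rw [one_mul]
      refine norm_le_of_sum (norm_nonneg _) fun s => ?_
      have h1 : ∑ j ∈ s, ‖co x 0 (ι j)‖ ^ 2 = ∑ γ ∈ s.map ⟨ι, hι⟩, ‖toL 𝕜 Γ 0 (x 0) γ‖ ^ 2 := by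
        rw [Finset.sum_map]
        rfl
      have h2 : ‖toL 𝕜 Γ 0 (x 0)‖ ≤ ‖x‖ := by
        have := rn_two_le (x 0)
        rw [pow_zero, one_mul] at this
        exact this.trans (apply_le x 0)
      calc ∑ j ∈ s, ‖co x 0 (ι j)‖ ^ 2 = ∑ γ ∈ s.map ⟨ι, hι⟩, ‖toL 𝕜 Γ 0 (x 0) γ‖ ^ 2 := h1
        _ ≤ ‖toL 𝕜 Γ 0 (x 0)‖ ^ 2 := sum_le_norm_sq _ _
        _ ≤ ‖x‖ ^ 2 := pow_le_pow_left₀ (norm_nonneg _) h2 2)

theorem Rmap_apply (ι : Γ × ℕ → Γ) (hι : Function.Injective ι) (x : Xs 𝕜 Γ) (j : Γ × ℕ) :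
    Rmap ι hι x j = co x 0 (ι j) := rfl

theorem Rmap_ev [DecidableEq Γ] (ι : Γ × ℕ → Γ) (hι : Function.Injective ι) (j : Γ × ℕ) :
    ∃ x : Xs 𝕜 Γ, ∀ v : lp (fun _ : Γ × ℕ => 𝕜) 2, inner 𝕜 v (Rmap ι hι x) = conj (v j) := by
  refine ⟨ev 0 (ι j), fun v => ?_⟩
  have h1 : Rmap ι hι (ev 0 (ι j) : Xs 𝕜 Γ) = lp.single 2 j (1 : 𝕜) := by
    apply lp.ext
    funext i
    rw [Rmap_apply, co_ev, lp.single_apply]
    by_cases h : i = j
    · subst h
      rw [Pi.single_eq_same, if_pos ⟨rfl, rfl⟩]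
    · rw [Pi.single_eq_of_ne h, if_neg fun h' => h (hι h'.2)]
  rw [h1, lp.inner_single_right]
  simp

/-- Every closed subspace of the dual is a kernel. -/
theorem dual_kernel [LinearOrder Γ] [WellFoundedLT Γ] (hΓ : ∀ i : Γ, (Set.Iic i).Countable)
    (hinf : Infinite Γ) (Y : Submodule 𝕜 (StrongDual 𝕜 (Xs 𝕜 Γ)))
    (hY : IsClosed (Y : Set (StrongDual 𝕜 (Xs 𝕜 Γ)))) :
    ∃ T : StrongDual 𝕜 (Xs 𝕜 Γ) →L[𝕜] StrongDual 𝕜 (Xs 𝕜 Γ), ∀ f, T f = 0 ↔ f ∈ Y := by
  obtain ⟨ι, hι⟩ : ∃ ι : Γ × ℕ → Γ, Function.Injective ι := by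
    have h1 : #(Γ × ℕ) ≤ #Γ := by
      rw [Cardinal.mk_prod, Cardinal.lift_id, Cardinal.lift_id, Cardinal.mk_nat]
      exact (Cardinal.mul_eq_left (Cardinal.aleph0_le_mk Γ) (Cardinal.aleph0_le_mk Γ)
        Cardinal.aleph0_ne_zero).le
    obtain ⟨e⟩ := h1
    exact ⟨e, e.injective⟩
  let W : Submodule 𝕜 (Xs 𝕜 Γ) :=
    { carrier := {x | ∀ g ∈ Y, g x = 0}
      add_mem' := fun {x y} hx hy g hg => by rw [map_add, hx g hg, hy g hg, add_zero]
      zero_mem' := fun g _ => map_zero g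
      smul_mem' := fun c x hx g hg => by rw [map_smul, hx g hg, smul_zero] }
  have hW : IsClosed (W : Set (Xs 𝕜 Γ)) := by
    have : (W : Set (Xs 𝕜 Γ)) = ⋂ g ∈ Y, {x | g x = 0} := by
      ext x
      simp only [Set.mem_iInter]
      rfl
    rw [this]
    exact isClosed_biInter fun g _ => isClosed_eq g.continuous continuous_const
  obtain ⟨T, hT⟩ := (sys 𝕜 Γ).exists_operator hΓ (Rmap ι hι) (Rmap_ev ι hι) W hW
  refine ⟨T, fun f => ?_⟩
  rw [hT]
  constructor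
  · intro h
    exact refl_annih refl_Xs Y hY fun x hx => h x hx
  · intro h w hw
    exact hw f h

end

end Pool.Agent.Q178.KP
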